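import Pool.Agent.BEJ.Stmts
import Pool.Agent.BES.Stmts

/-!
# Squad BEK (MP_be01ff_an): every annulus of the plane, every even `α`. Definitions.
-/

namespace Pool.Agent.BEK

open Set Filter Topology MeasureTheory
open scoped InnerProductSpace ENNReal
open Pool.Agent.BE01 Pool.Agent.BED Pool.Agent.BEJ
open Pool.Agent.BES (Lg)

noncomputable section

/-- The annulus `a < |y| < b`. -/
def An (a b : ℝ) : Set (En 2) := {y | a < ‖y‖ ∧ ‖y‖ < b}

/-- Radial functions on the annulus. -/
def Rda (a b : ℝ) (u : Lp ℝ 2 (mu (An a b))) : Prop := Inv (An a b) Set.univ u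

/-- A complex solution of Bessel's equation `H'' + H'/x + H = 0`, `x > 0`:
`H(x) = e^(ix) Q_0(x)` (a Hankel function). -/
def HH (x : ℝ) : ℂ := Complex.exp (x * Complex.I) * QQ 0 x

/-- The radial solutions of `Δ v + s² v = 0` as functions of `t = |y|²`: `Im (conj c H(s √t))`. -/
def gg (c : ℂ) (s t : ℝ) : ℝ := ((starRingEnd ℂ) c * HH (s * Real.sqrt t)).im

/-- The characteristic function of the annulus: `s²` is a radial eigenvalue iff `Dc a b s = 0`. -/
def Dc (a b s : ℝ) : ℝ := ((starRingEnd ℂ) (HH (s * a)) * HH (s * b)).im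

end

end Pool.Agent.BEK
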