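import Pool.Agent.BEK.Defs

/-!
# Squad BEK (MP_be01ff_an): every annulus of the plane, every even `α`. Statements.

THEOREM. For all `0 < a < b`, `A > 0`, `p ≥ 1` the annulus `a < |y| < b` of `ℝ²` has a strong solution with
the final state rate, `α = 2p`. PAPER. The explicit theorem `Fn3Stmt` of squad BED for radial functions.
The radial eigenfunctions are `z(|y|)`, `z(r) = Im(conj H(sa) H(sr))`, `H` the Hankel function of squad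
BEJ, with `z(b) = Dc a b s = 0`; for large `s`: `s (b-a) = π k - γ/s + O(s^(-2))`, `γ = (1/a - 1/b)/8 > 0`
(rows WPR, ZKA), and the order `N` is bounded independently of `s` (row ORE). If `s` and `n s`, `n` odd,
`3 ≤ n ≤ M`, are both such zeros then `n k = m` and `n γ/s - γ/(ns) = O(s^(-2))`: impossible for large `s`.

`Lg 0 l g t = 4 t g'' + 4 g' + l g` (`Δ (g(|y|²)) + l g(|y|²) = (Lg 0 l g)(|y|²)` in the plane).
All the rows can be started at once: `uses` = hypotheses of your theorem, in this order.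
-/

namespace Pool.Agent.BEK

open Set Filter Topology MeasureTheory
open scoped InnerProductSpace ENNReal
open Pool.Agent.BE01 Pool.Agent.BED Pool.Agent.BEJ
open Pool.Agent.BES (Lg)

noncomputable section

/-- RWK: the Laplacian of a radial function (no hypotheses; compare the row PWK of squad BES). The
gradient of `g(‖y‖²)` is `2 g'(‖y‖²) y` on `An a b` (`‖y‖² ∈ (0, ∞)`). Divergence theorem for the smooth
field `ψ(y) 2 g'(‖y‖²) y`, compactly supported in `An a b` (extended by `0`): `div (2 g' y) = 4 g' +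
4 ‖y‖² g''`. (`integral_mul_fderiv_eq_neg_fderiv_mul_of_integrable`, `Helper22_BEH/HFG.lean`.) -/
def RwkStmt : Prop := ∀ (a b : ℝ) (g : ℝ → ℝ) (ψ : En 2 → ℝ), 0 < a → a < b →
  ContDiffOn ℝ ((⊤ : ℕ∞) : WithTop ℕ∞) g (Ioi 0) → Tst (An a b) ψ →
  ∫ x, ⟪gradient ψ x, gradient (fun y => g (‖y‖ ^ 2)) x⟫_ℝ ∂(mu (An a b)) =
    - ∫ x, ψ x * Lg 0 0 g (‖x‖ ^ 2) ∂(mu (An a b))

/-- RHK: radial functions in `H^1_0` (uses `Pool.Agent.BES.GcfStmt`). `δ = (‖y‖² - a²)(b² - ‖y‖²)`;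
`{y ∈ An a b, ε ≤ δ}` = `{a ≤ ‖y‖ ≤ b, ε ≤ δ}` is closed and bounded; `|g(t)| ≤ C (t - a²)(b² - t)` on
`[a², b²]` (`g` is `C¹` near `[a², b²]`: mean value theorem from the nearer end); gradients are bounded
and continuous on `An a b`. -/
def RhkStmt : Prop := ∀ (a b : ℝ) (g : ℝ → ℝ), 0 < a → a < b →
  ContDiffOn ℝ ((⊤ : ℕ∞) : WithTop ℕ∞) g (Ioi 0) → g (a ^ 2) = 0 → g (b ^ 2) = 0 →
  ∃ (f : Lp ℝ 2 (mu (An a b))) (G : Lp (En 2) 2 (mu (An a b))), (f, G) ∈ H10 (An a b) ∧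
    f =ᵐ[mu (An a b)] (fun x => g (‖x‖ ^ 2)) ∧
    G =ᵐ[mu (An a b)] gradient (fun y => g (‖y‖ ^ 2))

/-- ORK: an eigenfunction is orthogonal to `(Δ + l) g(|y|²)` (uses RWK, RHK,
`Pool.Agent.BEO.WeoStmt`; copy the row ORS of squad BES, or `Helper49_BEO/ORO.lean`). `v = g(‖y‖²)`,
`(f, G')` from RHK, `(u, G)` from `IsEig`; WEO: `∫ ⟪G, G'⟫ = l ∫ u v`; RWK and density (`(u, G)` is a
limit of test pairs, `∇v` and `Lg 0 0 g (‖y‖²)` are bounded): `∫ ⟪G, ∇v⟫ = - ∫ u Lg 0 0 g (‖y‖²)`. -/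
def OrkStmt : Prop := ∀ (a b l : ℝ) (g : ℝ → ℝ) (u : Lp ℝ 2 (mu (An a b))), 0 < a → a < b →
  ContDiffOn ℝ ((⊤ : ℕ∞) : WithTop ℕ∞) g (Ioi 0) → g (a ^ 2) = 0 → g (b ^ 2) = 0 →
  IsEig (An a b) l u → ∫ x, u x * Lg 0 l g (‖x‖ ^ 2) ∂(mu (An a b)) = 0

/-- RDK: radial functions orthogonal to the powers of `|y|²` (uses `Pool.Agent.BED.RdeStmt`). The
extension `u~` of `u` by zero to `BB 2 b` is in `L²`, radial, and `∫ u~ ev (rho 2 ^ j) = ∫ u (‖y‖²)^j = 0`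
(`ev (rho 2) y = ‖y‖²`: `Pool.Agent.BEO.H44.evo`), so `u~ = 0`. -/
def RdkStmt : Prop := ∀ (a b : ℝ) (u : Lp ℝ 2 (mu (An a b))), 0 < a → a < b → Rda a b u →
  (∀ j : ℕ, ∫ x, u x * (‖x‖ ^ 2) ^ j ∂(mu (An a b)) = 0) → u = 0

/-- HSK: smoothness and the equation (uses `Pool.Agent.BEJ.QdeStmt`). `QQ j` is smooth on `(0, ∞)`
(derivative `- QQ (j+1)`, induction on the order), so `HH` and `t ↦ HH (s √t)` are. `H' = e^(ix)(i Q_0 -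
Q_1)`, `H'' = e^(ix)(- Q_0 - 2i Q_1 + Q_2)`, `x H'' + H' + x H = 0` by the last part of QDE. For
`g(t) = z(√t)`: `4 t g'' + 4 g' = z'' + z'/r`, `r = √t`. -/
def HskStmt : Prop := ∀ (c : ℂ) (s : ℝ), 0 < s →
  ContDiffOn ℝ ((⊤ : ℕ∞) : WithTop ℕ∞) (gg c s) (Ioi 0) ∧ ∀ t : ℝ, 0 < t →
    Lg 0 (s ^ 2) (gg c s) t = 0

/-- SPK: the radial spectrum (uses ORK, RDK, HSK). Let `Λ_u(g) = ∫ u Lg 0 s² g (‖y‖²)`; it is linear in
`g`, and `0` if `g(a²) = g(b²) = 0` (ORK). Polynomials `w_j` with `Lg 0 s² w_j t = t^j`: `w_0 = 1/s²`,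
`w_j = (t^j - 4 j² w_(j-1))/s²`. `Lg 0 s² (gg c s) = 0` (HSK), `c ↦ gg c s` is real linear.
FIRST (`Dc a b s ≠ 0`): the system `gg c s (a²) = w_j(a²)`, `gg c s (b²) = w_j(b²)` for `c = c1 + i c2`
has the determinant `± Dc a b s`, so a solution; `∫ u ‖y‖^(2j) = Λ(w_j - gg c s) = 0`; RDK.
SECOND (`HH (s a) ≠ 0`): let `gg c0 s (a²) = 1`. `g_j = w_j - w_j(a²) gg c0 s - β_j χ`, `χ(t) =
(t - a²)/(b² - a²)`, `β_j` = the value at `b²` of the first two terms, vanishes at `a²` and `b²`, so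
`∫ u ‖y‖^(2j) = β_j Λ_u(χ)` for every radial eigenfunction `u`, `β_j` independent of `u`. So
`Λ_u(χ) = 0` implies `u = 0` (RDK), and `u = (Λ_u(χ)/Λ_φ(χ)) φ`. -/
def SpkStmt : Prop := ∀ (a b s : ℝ), 0 < a → a < b → 0 < s →
  (Dc a b s ≠ 0 → ∀ u, Rda a b u → IsEig (An a b) (s ^ 2) u → u = 0) ∧
  (HH (s * a) ≠ 0 → ∀ φ, φ ≠ 0 → Rda a b φ → IsEig (An a b) (s ^ 2) φ →
    ∀ u, Rda a b u → IsEig (An a b) (s ^ 2) u → ∃ c : ℝ, u = c • φ)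

/-- PHK: the radial eigenfunction (uses RWK, RHK, HSK). `g = gg (HH (s a)) s`, `g(a²) = Im(|H(sa)|²) = 0`,
`g(b²) = Dc a b s = 0`; `f` from RHK; the weak equation from RWK and HSK (`Lg 0 0 g = - s² g` on `Ioi 0`).
Radial: compare the end of `Pool/Agent/Helper93_BED/PHR.lean`. -/
def PhkStmt : Prop := ∀ (a b s : ℝ), 0 < a → a < b → 0 < s → Dc a b s = 0 →
  ∃ φ : Lp ℝ 2 (mu (An a b)),
    (φ =ᵐ[mu (An a b)] fun y => ((starRingEnd ℂ) (HH (s * a)) * HH (s * ‖y‖)).im) ∧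
    Rda a b φ ∧ IsEig (An a b) (s ^ 2) φ

/-- WPR: asymptotics of the products (uses `Pool.Agent.BEJ.WasStmt`). `HH x = (π^(1/2)/(2 x^(1/2)))
e^(i(x + π/4)) w(x)`, `w(x) = 1 - i/(8x) + O(x^(-2))` bounded; `conj w(x) w(y) = 1 + i/(8x) - i/(8y) +
O(x^(-2) + y^(-2))`. The last part: `x = y`. -/
def WprStmt : Prop := ∃ C X : ℝ, 0 < C ∧ 1 ≤ X ∧ (∀ x y : ℝ, X ≤ x → X ≤ y →
  ‖((4 * Real.sqrt (x * y) / Real.pi : ℝ) : ℂ) * ((starRingEnd ℂ) (HH x) * HH y) -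
    Complex.exp ((y - x : ℝ) * Complex.I) * (1 + Complex.I * (1 / (8 * x) - 1 / (8 * y) : ℝ))‖ ≤
    C / x ^ 2 + C / y ^ 2) ∧ ∀ x : ℝ, X ≤ x → HH x ≠ 0

/-- ZKA: eigenvalues without resonances up to `M` (uses `Pool.Agent.BEJ.QdeStmt` for the continuity of
`Dc a b` on `(0, ∞)`, and WPR). `L = b - a`, `γ = (1/a - 1/b)/8 > 0`. By WPR `d(s) := (4 s (ab)^(1/2)/π)
Dc a b s = sin(sL) + (γ/s) cos(sL) + O(s^(-2))`. For `k` large `d` has opposite signs at `sL = πk ∓ π/2`: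
a zero `s` between. At any large zero `s`: `|sin(sL)| ≤ C/s`, so `sL = πk + η`, `|η| ≤ C/s`, and
`sin η + (γ/s) cos η = O(s^(-2))` gives `η = - γ/s + O(s^(-2))`. Let `n s` be a zero too, `n` odd,
`3 ≤ n ≤ M`: `n s L = πm + η'`, `η' = - γ/(ns) + O(s^(-2))`, so `π (m - nk) = nη - η' = O(1/s)`, hence
`m = nk` for large `s`, and `(n - 1/n) γ/s = O(s^(-2))`: impossible for large `s`. -/
def ZkaStmt : Prop := ∀ (a b S : ℝ) (M : ℕ), 0 < a → a < b → ∃ s : ℝ, S ≤ s ∧ 1 ≤ s ∧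
  Dc a b s = 0 ∧ ∀ n : ℕ, Odd n → 3 ≤ n → n ≤ M → Dc a b (n * s) ≠ 0

/-- ORN: the order is bounded (uses WPR). Let `z(r) = s Im(conj H(sa) H(sr))`. By WPR
`z(r) = (π/(4 (a r)^(1/2))) (sin(s(r-a)) + O(1/s))`, uniformly for `r ∈ [a, b]`, `s ≥ S0`. So
`|z| ≤ B0`, and `∫ (s φ)² = 2π ∫_a^b z(r)² r dr` (`integral_fun_norm_addHaar`) `≥ c ∫_a^b (sin²(s(r-a)) -
C/s) dr ≥ c' > 0` for `s ≥ S0` (`∫_a^b sin²(s(r-a)) = L/2 - sin(2sL)/(4s)`). By Hölder (or Jensen)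
`(∫ φ²)^(p+1) ≤ |Ω|^p ∫ φ^(2p+2)`, and `∫ (sφ)² ≤ B0² |Ω|`: so `(2p+1) B0^(2p) ∫ (sφ)² ≤ (2p+1)
B0^(2p) B0² |Ω| < N p c_p ∫ (sφ)^(2p+2)` for a suitable `N`; divide by `s^(2p+2)`
(`Pool.Agent.Helper70BE01Scl.cp_pos`). -/
def OrnStmt : Prop := ∀ (a b : ℝ) (p : ℕ), 0 < a → a < b → 1 ≤ p →
  ∃ (N : ℕ) (S B : ℝ), 1 ≤ S ∧ ∀ (s : ℝ) (φ : Lp ℝ 2 (mu (An a b))), S ≤ s →
    (φ =ᵐ[mu (An a b)] fun y => ((starRingEnd ℂ) (HH (s * a)) * HH (s * ‖y‖)).im) →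
    (∀ᵐ y ∂(mu (An a b)), |φ y| ≤ B / s) ∧
    (2 * p + 1) * (B / s) ^ (2 * p) * ∫ y, φ y ^ 2 ∂(mu (An a b)) <
      N * (p * cp p * ∫ y, φ y ^ (2 * p + 2) ∂(mu (An a b)))

/-- DSK: every annulus, every even `α` (uses `Pool.Agent.BED.Fn3Stmt`, SPK, PHK, WPR, ZKA, ORN;
compare `Pool/Agent/Helper27_BED/DSC.lean`). `G = univ`; `N, S, B` from ORN, `M = 1 + 2pN`, `s` from ZKA
(`s a ≥ X` of WPR, `s ≥ S`), `φ` from PHK (`φ ≠ 0` because the strict inequality of ORN would read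
`0 < 0`), simple by SPK (`HH (s a) ≠ 0`), `n² s² = (n s)²` and SPK. -/
def DskStmt : Prop := ∀ (a b A : ℝ) (p : ℕ), 0 < a → a < b → 0 < A → 1 ≤ p → Rat (An a b) A p

end

end Pool.Agent.BEK
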